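import Pool.Agent.R532.Nc4

/-!
# For every `x` at most one of the bases `π, 2 π, ..., k π` violates the asymptotic

Let `N(x, T)` be the number of the pairs `(n, m)` with `n ≤ T` and `|a ^ n - b ^ m| ≤ x`. For every
`k` there are `κ > 0` and `C` such that for every `x ≥ 2` and all `T` between `C log x` and `x ^ κ`
the formula `N(x, T) = (log x) ^ 2 / (log a log b) + O(log x)` holds for `b = e` and all but at most
one of the bases `a = π, 2 π, ..., k π`; and it holds for `(π, e)` or for `(π, 2)`, for `(π, e)` or for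
`(π, e ^ π)`, for `(π, e)` or for `(π ^ π, e)`, and so on. The question is about `(π, e)` and `T = ∞`.

Two near misses for two such pairs of bases give, by elimination of `log π`, a good rational
approximation of the logarithm of a rational number (or of `π`, `e`), so that one of the two exponents
is exponentially large in the other.
-/

set_option autoImplicit false

namespace Pool.Agent.Results.MP_606be1_nt.AllButOneBase

open Real

/-- the pairs `(n, m)` with `n ≤ T` and `|a ^ n - b ^ m| ≤ x` -/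
def pairsUpTo (a b x T : ℝ) : Set (ℕ × ℕ) := {p | (p.1 : ℝ) ≤ T ∧ |a ^ p.1 - b ^ p.2| ≤ x}

/-- the asymptotic formula at `x` for the pairs with `n ≤ T`, for all `T` from `C log x` to `x ^ κ` -/
def Formula (κ C a b x : ℝ) : Prop :=
  ∀ T : ℝ, C * log x ≤ T → T ≤ x ^ κ → (pairsUpTo a b x T).Finite ∧
    |(((pairsUpTo a b x T).ncard : ℕ) : ℝ) - log x ^ 2 / (log a * log b)| ≤ C * log x

lemma formula_iff {κ C a b x : ℝ} :
    Formula κ C a b x ↔ Pool.Agent.R532.Nc.GoodAt κ C a b x := by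
  have h : ∀ T : ℝ, pairsUpTo a b x T = Pool.Agent.R532.Nc.pairsUpTo a b 1 x T := by
    intro T
    ext p
    simp only [pairsUpTo, Pool.Agent.R532.Nc.pairsUpTo, one_mul]
  simp only [Formula, Pool.Agent.R532.Nc.GoodAt, h]

lemma Formula.mono {κ κ' C C' a b x : ℝ} (hx : 2 ≤ x) (hκ : κ' ≤ κ) (hC : C ≤ C')
    (h : Formula κ C a b x) : Formula κ' C' a b x :=
  formula_iff.2 ((formula_iff.1 h).mono hx hκ hC)

/-- two bases -/
theorem two {a₁ b₁ a₂ b₂ : ℝ} (ha₁ : 1 < a₁) (hb₁ : 1 < b₁) (ha₂ : 1 < a₂) (hb₂ : 1 < b₂)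
    (hJ : Pool.Agent.R356.JointR (log a₁ / log b₁) (log a₂ / log b₂)) : ∃ κ : ℝ, 0 < κ ∧ ∃ C : ℝ,
      ∀ x : ℝ, 2 ≤ x → Formula κ C a₁ b₁ x ∨ Formula κ C a₂ b₂ x := by
  obtain ⟨κ, hκ, C, -, h⟩ := Pool.Agent.R532.Nc.alternative ha₁ hb₁ ha₂ hb₂ hJ
  exact ⟨κ, hκ, C, fun x hx => by
    rw [formula_iff, formula_iff]
    exact h x hx⟩

lemma he : 1 < exp 1 := by
  rw [one_lt_exp_iff]
  exact one_pos

/-- two dilations of the base -/
theorem two_dilations {a : ℝ} (ha : 0 < a) {q q' : ℚ} (hq : 0 < q) (hq' : 0 < q')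
    (hqa : 1 < q * a) (hqa' : 1 < q' * a) (hne : q ≠ q') : ∃ κ : ℝ, 0 < κ ∧ ∃ C : ℝ,
      ∀ x : ℝ, 2 ≤ x → Formula κ C (q * a) (exp 1) x ∨ Formula κ C (q' * a) (exp 1) x := by
  refine two hqa he hqa' he ?_
  rw [log_exp, div_one, div_one]
  have hqr : (0 : ℝ) < q := by exact_mod_cast hq
  have hqr' : (0 : ℝ) < q' := by exact_mod_cast hq'
  have h1 : (0 : ℚ) < q' / q := div_pos hq' hq
  have h2 : q' / q ≠ 1 := by
    intro h
    rw [div_eq_one_iff_eq hq.ne'] at h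
    exact hne h.symm
  have h3 := Pool.Agent.R473.JC.jointR_of_alg (log ((q' / q : ℚ) : ℝ))
    (Pool.Agent.TH456.TM.measT_real_log _ h1 h2) _ _
    (Pool.Agent.R473.JC.alg_lin (log ((q' / q : ℚ) : ℝ)) (log (q * a)) 0 1 1 1 (by norm_num))
  have e1 : ((0 : ℤ) : ℝ) * log ((q' / q : ℚ) : ℝ) + ((1 : ℤ) : ℝ) * log (q * a) =
      log (q * a) := by simp
  have e2 : ((1 : ℤ) : ℝ) * log ((q' / q : ℚ) : ℝ) + ((1 : ℤ) : ℝ) * log (q * a) =
      log (q' * a) := by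
    push_cast
    rw [one_mul, one_mul, ← log_mul (by positivity) (by positivity)]
    congr 1
    field_simp
  rwa [e1, e2] at h3

/-- the numbers `e`, `π` and the logarithms of rational numbers `> 1` -/
def Special (ξ : ℝ) : Prop := ξ = exp 1 ∨ ξ = π ∨ ∃ q : ℚ, 1 < q ∧ ξ = log q

lemma special_meas {ξ : ℝ} (h : Special ξ) : 0 < ξ ∧ Pool.Agent.TH456.TM.MeasT (ξ : ℂ) := by
  refine ⟨?_, Pool.Agent.R473.JC.measT_three ξ ?_⟩
  · rcases h with rfl | rfl | ⟨q, hq, rfl⟩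
    · exact exp_pos 1
    · exact pi_pos
    · exact log_pos (by exact_mod_cast hq)
  · rcases h with h | h | ⟨q, hq, h⟩
    · exact Or.inl h
    · exact Or.inr (Or.inl h)
    · exact Or.inr (Or.inr ⟨q, by linarith, hq.ne', h⟩)

theorem second_base {a ξ : ℝ} (ha : 1 < a) (hξ : Special ξ) : ∃ κ : ℝ, 0 < κ ∧ ∃ C : ℝ,
    ∀ x : ℝ, 2 ≤ x → Formula κ C a (exp 1) x ∨ Formula κ C a (exp ξ) x := by
  obtain ⟨h0, hm⟩ := special_meas hξ
  have hla : 0 < log a := log_pos ha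
  obtain ⟨κ, hκ, C, h⟩ := two (a₁ := a) (b₁ := exp ξ) (a₂ := a) (b₂ := exp 1) ha
    (by rwa [one_lt_exp_iff]) ha he (by
      rw [log_exp, log_exp, div_one]
      exact Pool.Agent.R473.JC.jointR_of_alg ξ hm _ _
        (Pool.Agent.R473.JC.alg_quot ξ (log a / ξ) (log a) 1 one_ne_zero
          (div_pos hla h0).ne' (by rw [pow_one, div_mul_cancel₀ _ h0.ne'])))
  exact ⟨κ, hκ, C, fun x hx => (h x hx).symm⟩

theorem first_base {a ξ : ℝ} (ha : 1 < a) (hξ : Special ξ) : ∃ κ : ℝ, 0 < κ ∧ ∃ C : ℝ,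
    ∀ x : ℝ, 2 ≤ x → Formula κ C a (exp 1) x ∨ Formula κ C (a ^ ξ) (exp 1) x := by
  obtain ⟨h0, hm⟩ := special_meas hξ
  have hla : 0 < log a := log_pos ha
  have ha0 : 0 < a := by linarith
  refine two ha he (one_lt_rpow ha h0) he ?_
  rw [log_exp, div_one, div_one, log_rpow ha0]
  exact Pool.Agent.R473.JC.jointR_of_alg ξ hm _ _
    (Pool.Agent.R473.JC.alg_quot ξ (log a) (ξ * log a) 1 one_ne_zero hla.ne'
      (by rw [pow_one, mul_comm]))

/-- finitely many dilations -/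
theorem finset_dilations {a : ℝ} (ha : 0 < a) (Q : Finset ℚ) (hQ : ∀ q ∈ Q, 0 < q ∧ 1 < q * a) :
    ∃ κ : ℝ, 0 < κ ∧ ∃ C : ℝ, ∀ x : ℝ, 2 ≤ x → ∀ q ∈ Q, ∀ q' ∈ Q, q ≠ q' →
      Formula κ C (q * a) (exp 1) x ∨ Formula κ C (q' * a) (exp 1) x := by
  classical
  have key : ∀ P : Finset (ℚ × ℚ), (∀ p ∈ P, p.1 ∈ Q ∧ p.2 ∈ Q ∧ p.1 ≠ p.2) →
      ∃ κ : ℝ, 0 < κ ∧ ∃ C : ℝ, ∀ x : ℝ, 2 ≤ x → ∀ p ∈ P,
        Formula κ C (p.1 * a) (exp 1) x ∨ Formula κ C (p.2 * a) (exp 1) x := by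
    intro P
    induction P using Finset.induction_on with
    | empty => exact fun _ => ⟨1, one_pos, 0, fun x _ p hp => absurd hp (Finset.notMem_empty p)⟩
    | insert p P hp ih =>
      intro h
      obtain ⟨κ, hκ, C, hC⟩ := ih fun p' hp' => h p' (Finset.mem_insert_of_mem hp')
      obtain ⟨h1, h2, h3⟩ := h p (Finset.mem_insert_self p P)
      obtain ⟨κ', hκ', C', hC'⟩ := two_dilations ha (hQ _ h1).1 (hQ _ h2).1 (hQ _ h1).2 (hQ _ h2).2 h3
      refine ⟨min κ κ', lt_min hκ hκ', max C C', fun x hx p' hp' => ?_⟩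
      rcases Finset.mem_insert.1 hp' with rfl | hp'
      · exact (hC' x hx).imp (Formula.mono hx (min_le_right _ _) (le_max_right _ _))
          (Formula.mono hx (min_le_right _ _) (le_max_right _ _))
      · exact (hC x hx p' hp').imp (Formula.mono hx (min_le_left _ _) (le_max_left _ _))
          (Formula.mono hx (min_le_left _ _) (le_max_left _ _))
  obtain ⟨κ, hκ, C, hC⟩ := key ((Q ×ˢ Q).filter fun p => p.1 ≠ p.2) (by
    intro p hp
    rw [Finset.mem_filter, Finset.mem_product] at hp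
    exact ⟨hp.1.1, hp.1.2, hp.2⟩)
  exact ⟨κ, hκ, C, fun x hx q hq q' hq' hne => hC x hx (q, q') (by
    rw [Finset.mem_filter, Finset.mem_product]
    exact ⟨⟨hq, hq'⟩, hne⟩)⟩

/-- **Theorem.** (1) For every `k` there are `κ > 0` and `C` such that for every `x ≥ 2` there is `j₀`
such that for all `1 ≤ j ≤ k`, `j ≠ j₀`, and all `T` between `C log x` and `x ^ κ`, the number of the
pairs `(n, m)` with `n ≤ T` and `|(j π) ^ n - e ^ m| ≤ x` is `(log x) ^ 2 / log (j π)` up to an error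
`≤ C log x`.
(2) More generally, for every real `a > 0` and every finite set `Q` of positive rational numbers with
`q a > 1` for all `q ∈ Q`, there are `κ > 0` and `C` such that for every `x ≥ 2` and all `q ≠ q'` in
`Q` the same formula holds for the base `q a` or for the base `q' a`.
(3) For every real `a > 1` (for instance `π`) and `ξ = e`, `ξ = π` or `ξ = log r` with a rational number
`r > 1`, there are `κ > 0` and `C` such that for every `x ≥ 2` the formula holds for `(a, e)` or for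
`(a, e ^ ξ)`, and it holds for `(a, e)` or for `(a ^ ξ, e)`. -/
theorem result :
    (∀ k : ℕ, ∃ κ : ℝ, 0 < κ ∧ ∃ C : ℝ, ∀ x : ℝ, 2 ≤ x → ∃ j₀ : ℕ, ∀ j : ℕ, 1 ≤ j → j ≤ k → j ≠ j₀ →
      Formula κ C (j * π) (exp 1) x) ∧
    (∀ a : ℝ, 0 < a → ∀ Q : Finset ℚ, (∀ q ∈ Q, 0 < q ∧ 1 < q * a) →
      ∃ κ : ℝ, 0 < κ ∧ ∃ C : ℝ, ∀ x : ℝ, 2 ≤ x → ∀ q ∈ Q, ∀ q' ∈ Q, q ≠ q' →
        Formula κ C (q * a) (exp 1) x ∨ Formula κ C (q' * a) (exp 1) x) ∧
    (∀ a : ℝ, 1 < a → ∀ ξ : ℝ, Special ξ → ∃ κ : ℝ, 0 < κ ∧ ∃ C : ℝ, ∀ x : ℝ, 2 ≤ x →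
      (Formula κ C a (exp 1) x ∨ Formula κ C a (exp ξ) x) ∧
      (Formula κ C a (exp 1) x ∨ Formula κ C (a ^ ξ) (exp 1) x)) := by
  refine ⟨fun k => ?_, fun a ha Q hQ => finset_dilations ha Q hQ, fun a ha ξ hξ => ?_⟩
  · classical
    obtain ⟨κ, hκ, C, hC⟩ := finset_dilations pi_pos
      ((Finset.Icc 1 k).image fun j : ℕ => (j : ℚ)) (by
        intro q hq
        obtain ⟨j, hj, rfl⟩ := Finset.mem_image.1 hq
        rw [Finset.mem_Icc] at hj
        have h1 : (1 : ℝ) ≤ j := by exact_mod_cast hj.1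
        refine ⟨by exact_mod_cast hj.1, ?_⟩
        push_cast
        nlinarith [pi_gt_three])
    refine ⟨κ, hκ, C, fun x hx => ?_⟩
    by_cases h : ∃ j₀ : ℕ, 1 ≤ j₀ ∧ j₀ ≤ k ∧ ¬ Formula κ C (j₀ * π) (exp 1) x
    · obtain ⟨j₀, h1, h2, h3⟩ := h
      refine ⟨j₀, fun j hj1 hj2 hj => ?_⟩
      have h4 := hC x hx j (Finset.mem_image.2 ⟨j, Finset.mem_Icc.2 ⟨hj1, hj2⟩, rfl⟩) j₀
        (Finset.mem_image.2 ⟨j₀, Finset.mem_Icc.2 ⟨h1, h2⟩, rfl⟩) (by exact_mod_cast hj)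
      push_cast at h4
      exact h4.resolve_right h3
    · push Not at h
      exact ⟨0, fun j hj1 hj2 _ => h j hj1 hj2⟩
  · obtain ⟨κ, hκ, C, hC⟩ := second_base ha hξ
    obtain ⟨κ', hκ', C', hC'⟩ := first_base ha hξ
    refine ⟨min κ κ', lt_min hκ hκ', max C C', fun x hx => ⟨?_, ?_⟩⟩
    · exact (hC x hx).imp (Formula.mono hx (min_le_left _ _) (le_max_left _ _))
        (Formula.mono hx (min_le_left _ _) (le_max_left _ _))
    · exact (hC' x hx).imp (Formula.mono hx (min_le_right _ _) (le_max_right _ _))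
        (Formula.mono hx (min_le_right _ _) (le_max_right _ _))

end Pool.Agent.Results.MP_606be1_nt.AllButOneBase
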