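import Pool.Agent.R425.MK.Lim

/-!
# Near-coincidences between dilated powers of `π` and powers of `e`

For all `c > 0` outside a set of Hausdorff dimension zero the number of the pairs `(n, m)` with
`|c π ^ n - e ^ m| ≤ x` is `(log x) ^ 2 / log π + O(log x)`; the question is about `c = 1`. The same is
true for all bases `a, b > 1` instead of `π`, `e`, and for fixed `c > 0` and `b > 1` (for instance
`c = 1`, `b = e`) and all `a > 1` outside a set of Hausdorff dimension zero. In general the asymptotic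
holds, with the error `O(log x)`, for the pairs which are not near misses
`|c a ^ n - b ^ m| < (c a ^ n) ^ (1/2)`.
-/

set_option autoImplicit false

namespace Pool.Agent.Results.MP_606be1_nt.DilatedNearCoincidences

open Real Filter Asymptotics Topology

/-- the pairs `(n, m)` with `|c a ^ n - b ^ m| ≤ x` -/
def pairs (a b c x : ℝ) : Set (ℕ × ℕ) := {p | |c * a ^ p.1 - b ^ p.2| ≤ x}

/-- the near misses: the pairs `(n, m)` with `|c a ^ n - b ^ m| < (c a ^ n) ^ (1/2)` -/
def nearMisses (a b c : ℝ) : Set (ℕ × ℕ) := {p | |c * a ^ p.1 - b ^ p.2| ^ 2 < c * a ^ p.1}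

section count

variable {a b c : ℝ}

/-- the number of the `n` with `c a ^ n ≤ y` -/
lemma cnt (ha : 1 < a) (hc : 0 < c) : ∃ K : ℝ, 0 ≤ K ∧ ∀ y : ℝ, 1 ≤ y →
    {n : ℕ | c * a ^ n ≤ y}.Finite ∧
      |(({n : ℕ | c * a ^ n ≤ y}.ncard : ℕ) : ℝ) - log y / log a| ≤ K := by
  have hla : 0 < log a := log_pos ha
  refine ⟨|log c| / log a + 1, by positivity, fun y hy => ?_⟩
  have hy0 : 0 < y := by linarith
  have hly : 0 ≤ log y := log_nonneg hy
  by_cases hyc : y < c
  · have hempty : {n : ℕ | c * a ^ n ≤ y} = ∅ := by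
      ext n
      simp only [Set.mem_ofPred_eq, Set.mem_empty_iff_false, iff_false, not_le]
      have h1 : 1 ≤ a ^ n := one_le_pow₀ ha.le
      nlinarith
    rw [hempty]
    refine ⟨Set.finite_empty, ?_⟩
    rw [Set.ncard_empty, Nat.cast_zero, zero_sub, abs_neg, abs_of_nonneg (by positivity)]
    have h2 : log y ≤ |log c| := (log_le_log hy0 hyc.le).trans (le_abs_self _)
    have h3 : log y / log a ≤ |log c| / log a := div_le_div_of_nonneg_right h2 hla.le
    linarith
  · rw [not_lt] at hyc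
    set t : ℝ := log (y / c) / log a with ht
    have hyc1 : 1 ≤ y / c := by rwa [le_div_iff₀ hc, one_mul]
    have ht0 : 0 ≤ t := div_nonneg (log_nonneg hyc1) hla.le
    set L : ℕ := ⌊t⌋₊ with hL
    have hset : {n : ℕ | c * a ^ n ≤ y} = ((Finset.range (L + 1) : Finset ℕ) : Set ℕ) := by
      ext n
      simp only [Set.mem_ofPred_eq, Finset.coe_range, Set.mem_Iio]
      rw [Nat.lt_succ_iff, hL, Nat.le_floor_iff ht0, ht, le_div_iff₀ hla, ← log_pow,
        log_le_log_iff (by positivity) (by positivity), le_div_iff₀ hc, mul_comm]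
    rw [hset]
    refine ⟨Finset.finite_toSet _, ?_⟩
    rw [Set.ncard_coe_finset, Finset.card_range]
    have h1 : (L : ℝ) ≤ t := Nat.floor_le ht0
    have h2 : t < (L : ℝ) + 1 := Nat.lt_floor_add_one t
    have h3 : t = log y / log a - log c / log a := by
      rw [ht, log_div hy0.ne' hc.ne', sub_div]
    have h4 : |log c / log a| = |log c| / log a := by
      rw [abs_div, abs_of_pos hla]
    have h5 := abs_le.1 (le_refl |log c / log a|)
    rw [h4] at h5
    rw [abs_le]
    push_cast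
    constructor <;> linarith [h5.1, h5.2]

/-- the pairs with `c a ^ n ≤ y`, `b ^ m ≤ z` -/
def rect (a b c y z : ℝ) : Set (ℕ × ℕ) := {p | c * a ^ p.1 ≤ y ∧ b ^ p.2 ≤ z}

lemma rect_count (ha : 1 < a) (hb : 1 < b) (hc : 0 < c) {k l : ℝ} (hk : 1 ≤ k) (hl : 1 ≤ l) :
    ∃ C : ℝ, ∀ x : ℝ, 2 ≤ x → (rect a b c (k * x) (l * x)).Finite ∧
      |(((rect a b c (k * x) (l * x)).ncard : ℕ) : ℝ) - log x ^ 2 / (log a * log b)| ≤
        C * log x := by
  have hla : 0 < log a := log_pos ha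
  have hlb : 0 < log b := log_pos hb
  obtain ⟨K, hK0, hK⟩ := cnt ha hc
  obtain ⟨J, hJ0, hJ⟩ := cnt hb one_pos
  set K1 : ℝ := K + log k / log a with hK1
  set J1 : ℝ := J + log l / log b with hJ1
  have hlk : 0 ≤ log k := log_nonneg hk
  have hll : 0 ≤ log l := log_nonneg hl
  have hK10 : 0 ≤ K1 := by positivity
  have hJ10 : 0 ≤ J1 := by positivity
  refine ⟨J1 / log a + K1 / log b + K1 * J1 / log 2, fun x hx => ?_⟩
  have hx0 : 0 < x := by linarith
  have hk0 : 0 < k := by linarith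
  have hl0 : 0 < l := by linarith
  have hlog2 : 0 < log 2 := log_pos (by norm_num)
  have hlx : log 2 ≤ log x := log_le_log (by norm_num) hx
  have hlx0 : 0 < log x := by linarith
  obtain ⟨f1, e1⟩ := hK (k * x) (by nlinarith)
  obtain ⟨f2, e2⟩ := hJ (l * x) (by nlinarith)
  have hset : rect a b c (k * x) (l * x) =
      {n : ℕ | c * a ^ n ≤ k * x} ×ˢ {m : ℕ | 1 * b ^ m ≤ l * x} := by
    ext p
    simp only [rect, Set.mem_ofPred_eq, Set.mem_prod, one_mul]
  rw [hset]
  refine ⟨f1.prod f2, ?_⟩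
  rw [Set.ncard_prod, Nat.cast_mul]
  set N1 : ℝ := (({n : ℕ | c * a ^ n ≤ k * x}.ncard : ℕ) : ℝ) with hN1
  set N2 : ℝ := (({m : ℕ | 1 * b ^ m ≤ l * x}.ncard : ℕ) : ℝ) with hN2
  have g1 : |N1 - log x / log a| ≤ K1 := by
    rw [log_mul hk0.ne' hx0.ne', add_div] at e1
    have h1 : 0 ≤ log k / log a := by positivity
    rw [abs_le] at e1 ⊢
    constructor <;> linarith [e1.1, e1.2]
  have g2 : |N2 - log x / log b| ≤ J1 := by
    rw [log_mul hl0.ne' hx0.ne', add_div] at e2
    have h1 : 0 ≤ log l / log b := by positivity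
    rw [abs_le] at e2 ⊢
    constructor <;> linarith [e2.1, e2.2]
  have h1 : N1 * N2 - log x ^ 2 / (log a * log b) =
      log x / log a * (N2 - log x / log b) + (N1 - log x / log a) * (log x / log b) +
        (N1 - log x / log a) * (N2 - log x / log b) := by
    field_simp
    ring
  rw [h1]
  have hA : 0 ≤ log x / log a := by positivity
  have hB : 0 ≤ log x / log b := by positivity
  calc |log x / log a * (N2 - log x / log b) + (N1 - log x / log a) * (log x / log b) +
        (N1 - log x / log a) * (N2 - log x / log b)|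
      ≤ |log x / log a * (N2 - log x / log b)| + |(N1 - log x / log a) * (log x / log b)| +
        |(N1 - log x / log a) * (N2 - log x / log b)| := abs_add_three _ _ _
    _ = log x / log a * |N2 - log x / log b| + |N1 - log x / log a| * (log x / log b) +
        |N1 - log x / log a| * |N2 - log x / log b| := by
        rw [abs_mul, abs_mul, abs_mul, abs_of_nonneg hA, abs_of_nonneg hB]
    _ ≤ log x / log a * J1 + K1 * (log x / log b) + K1 * J1 := by
        gcongr
    _ ≤ log x / log a * J1 + K1 * (log x / log b) + K1 * J1 / log 2 * log x := by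
        have : K1 * J1 ≤ K1 * J1 / log 2 * log x := by
          rw [div_mul_eq_mul_div, le_div_iff₀ hlog2]
          exact mul_le_mul_of_nonneg_left hlx (by positivity)
        linarith
    _ = (J1 / log a + K1 / log b + K1 * J1 / log 2) * log x := by ring

/-- the middle range -/
def mid (a b c x : ℝ) : Set (ℕ × ℕ) :=
  {p | c * a ^ p.1 ≤ x ^ 2 ∧ 2 * x < c * a ^ p.1 ∧ |c * a ^ p.1 - b ^ p.2| ≤ x}

lemma mid_count (ha : 1 < a) (hb : 1 < b) (hc : 0 < c) :
    ∃ C : ℝ, ∀ x : ℝ, 2 ≤ x → (mid a b c x).Finite ∧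
      (((mid a b c x).ncard : ℕ) : ℝ) ≤ C * log x := by
  have hla : 0 < log a := log_pos ha
  obtain ⟨K, hK0, hK⟩ := cnt ha hc
  obtain ⟨R, hR⟩ := pow_unbounded_of_one_lt (3 : ℝ) hb
  have hlog2 : 0 < log 2 := log_pos (by norm_num)
  have hR0 : 0 < R := by
    rcases Nat.eq_zero_or_pos R with h | h
    · rw [h] at hR
      norm_num at hR
    · exact h
  refine ⟨(2 / log a + K / log 2) * R, fun x hx => ?_⟩
  have hx0 : 0 < x := by linarith
  have hlx : log 2 ≤ log x := log_le_log (by norm_num) hx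
  obtain ⟨f1, e1⟩ := hK (x ^ 2) (by nlinarith)
  set T : Set (ℕ × ℕ) := {n : ℕ | c * a ^ n ≤ x ^ 2} ×ˢ ((Finset.range R : Finset ℕ) : Set ℕ)
    with hT
  have hTf : T.Finite := f1.prod (Finset.finite_toSet _)
  set φ : ℕ × ℕ → ℕ × ℕ := fun p => (p.1, p.2 % R) with hφ
  have hmaps : Set.MapsTo φ (mid a b c x) T := by
    rintro p ⟨h1, -, -⟩
    refine ⟨h1, ?_⟩
    simp only [hφ, Finset.coe_range, Set.mem_Iio]
    exact Nat.mod_lt _ hR0
  have key : ∀ p ∈ mid a b c x, ∀ q ∈ mid a b c x, p.1 = q.1 → q.2 < p.2 + R := by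
    rintro p ⟨-, h2, h3⟩ q ⟨-, h5, h6⟩ hpq
    have h7 := (abs_le.1 h3).2
    have h8 := (abs_le.1 h6).1
    rw [hpq] at h2 h7
    have h9 : b ^ q.2 < 3 * b ^ p.2 := by linarith
    have h10 : b ^ q.2 < b ^ (p.2 + R) := by
      calc b ^ q.2 < 3 * b ^ p.2 := h9
        _ ≤ b ^ R * b ^ p.2 := mul_le_mul_of_nonneg_right hR.le (by positivity)
        _ = b ^ (p.2 + R) := by rw [pow_add]; ring
    exact (pow_lt_pow_iff_right₀ hb).1 h10
  have hinj : Set.InjOn φ (mid a b c x) := by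
    intro p hp q hq h
    simp only [hφ, Prod.mk.injEq] at h
    obtain ⟨h1, h2⟩ := h
    have h3 := key p hp q hq h1
    have h4 := key q hq p hp h1.symm
    have h5 : p.2 = q.2 := by
      have e1 := Nat.div_add_mod p.2 R
      have e2 := Nat.div_add_mod q.2 R
      have e3 : R * (q.2 / R) < R * (p.2 / R) + R := by omega
      have e4 : R * (p.2 / R) < R * (q.2 / R) + R := by omega
      have e5 : q.2 / R < p.2 / R + 1 := by
        by_contra hcon
        push Not at hcon
        have := Nat.mul_le_mul_left R hcon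
        rw [mul_add, mul_one] at this
        omega
      have e6 : p.2 / R < q.2 / R + 1 := by
        by_contra hcon
        push Not at hcon
        have := Nat.mul_le_mul_left R hcon
        rw [mul_add, mul_one] at this
        omega
      have e7 : p.2 / R = q.2 / R := by omega
      rw [e7] at e1
      omega
    exact Prod.ext h1 h5
  refine ⟨Set.Finite.of_injOn hmaps hinj hTf, ?_⟩
  have h1 : (mid a b c x).ncard ≤ T.ncard := Set.ncard_le_ncard_of_injOn φ hmaps hinj hTf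
  rw [hT, Set.ncard_prod, Set.ncard_coe_finset, Finset.card_range] at h1
  have h2 : (({n : ℕ | c * a ^ n ≤ x ^ 2}.ncard : ℕ) : ℝ) ≤ 2 * log x / log a + K := by
    have := (abs_le.1 e1).2
    rw [log_pow] at this
    push_cast at this
    linarith
  have hR' : (0 : ℝ) ≤ R := Nat.cast_nonneg R
  calc (((mid a b c x).ncard : ℕ) : ℝ)
      ≤ (({n : ℕ | c * a ^ n ≤ x ^ 2}.ncard : ℕ) : ℝ) * R := by exact_mod_cast h1
    _ ≤ (2 * log x / log a + K) * R := mul_le_mul_of_nonneg_right h2 hR'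
    _ ≤ (2 * log x / log a + K / log 2 * log x) * R := by
        have : K ≤ K / log 2 * log x := by
          rw [div_mul_eq_mul_div, le_div_iff₀ hlog2]
          exact mul_le_mul_of_nonneg_left hlx hK0
        exact mul_le_mul_of_nonneg_right (by linarith) hR'
    _ = (2 / log a + K / log 2) * R * log x := by ring

/-- **The asymptotic off the near misses.** -/
theorem off_near (ha : 1 < a) (hb : 1 < b) (hc : 0 < c) :
    ∃ C : ℝ, ∀ x : ℝ, 2 ≤ x → (pairs a b c x \ nearMisses a b c).Finite ∧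
      |(((pairs a b c x \ nearMisses a b c).ncard : ℕ) : ℝ) - log x ^ 2 / (log a * log b)| ≤
        C * log x + ((rect a b c x x ∩ nearMisses a b c).ncard : ℕ) := by
  obtain ⟨C1, h1⟩ := rect_count ha hb hc (le_refl (1 : ℝ)) (le_refl (1 : ℝ))
  obtain ⟨C2, h2⟩ := rect_count ha hb hc (by norm_num : (1 : ℝ) ≤ 2) (by norm_num : (1 : ℝ) ≤ 3)
  obtain ⟨C3, h3⟩ := mid_count ha hb hc
  refine ⟨max (C2 + C3) C1, fun x hx => ?_⟩
  have hlog2 : 0 < log 2 := log_pos (by norm_num)
  have hlx : log 2 ≤ log x := log_le_log (by norm_num) hx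
  have hlx0 : 0 < log x := by linarith
  obtain ⟨f1, e1⟩ := h1 x hx
  obtain ⟨f2, e2⟩ := h2 x hx
  obtain ⟨f3, e3⟩ := h3 x hx
  rw [one_mul] at f1 e1
  have hup : pairs a b c x \ nearMisses a b c ⊆ rect a b c (2 * x) (3 * x) ∪ mid a b c x := by
    rintro p ⟨hp, hq⟩
    simp only [pairs, Set.mem_ofPred_eq] at hp
    simp only [nearMisses, Set.mem_ofPred_eq, not_lt] at hq
    by_cases h4 : c * a ^ p.1 ≤ 2 * x
    · left
      refine ⟨h4, ?_⟩
      have := (abs_le.1 hp).1
      linarith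
    · right
      rw [not_le] at h4
      refine ⟨hq.trans ?_, h4, hp⟩
      exact pow_le_pow_left₀ (abs_nonneg _) hp 2
  have hlow : rect a b c x x ⊆ pairs a b c x := by
    rintro p ⟨h4, h5⟩
    simp only [pairs, Set.mem_ofPred_eq]
    have h6 : 0 < c * a ^ p.1 := by positivity
    have h7 : 0 < b ^ p.2 := by positivity
    rw [abs_le]
    constructor <;> linarith
  have hfin : (pairs a b c x \ nearMisses a b c).Finite := (f2.union f3).subset hup
  refine ⟨hfin, ?_⟩
  have hcard_up : (((pairs a b c x \ nearMisses a b c).ncard : ℕ) : ℝ) ≤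
      (((rect a b c (2 * x) (3 * x)).ncard : ℕ) : ℝ) + (((mid a b c x).ncard : ℕ) : ℝ) := by
    have h4 := Set.ncard_le_ncard hup (f2.union f3)
    have h5 := Set.ncard_union_le (rect a b c (2 * x) (3 * x)) (mid a b c x)
    exact_mod_cast h4.trans h5
  have hcard_low : (((rect a b c x x).ncard : ℕ) : ℝ) ≤
      (((pairs a b c x \ nearMisses a b c).ncard : ℕ) : ℝ) +
        ((rect a b c x x ∩ nearMisses a b c).ncard : ℕ) := by
    have h4 : rect a b c x x ⊆ (pairs a b c x \ nearMisses a b c) ∪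
        (rect a b c x x ∩ nearMisses a b c) := by
      intro p hp
      by_cases hq : p ∈ nearMisses a b c
      · exact Or.inr ⟨hp, hq⟩
      · exact Or.inl ⟨hlow hp, hq⟩
    have h5 := Set.ncard_le_ncard h4 (hfin.union (f1.subset Set.inter_subset_left))
    have h6 := Set.ncard_union_le (pairs a b c x \ nearMisses a b c)
      (rect a b c x x ∩ nearMisses a b c)
    exact_mod_cast h5.trans h6
  have g1 : (C2 + C3) * log x ≤ max (C2 + C3) C1 * log x :=
    mul_le_mul_of_nonneg_right (le_max_left _ _) hlx0.le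
  have g2 : C1 * log x ≤ max (C2 + C3) C1 * log x :=
    mul_le_mul_of_nonneg_right (le_max_right _ _) hlx0.le
  have g3 : (0 : ℝ) ≤ ((rect a b c x x ∩ nearMisses a b c).ncard : ℕ) := Nat.cast_nonneg _
  rw [abs_le]
  have e1' := abs_le.1 e1
  have e2' := abs_le.1 e2
  constructor
  · linarith [e1'.1]
  · linarith [e2'.2]

/-- if there are only finitely many near misses, the asymptotic holds -/
theorem asym (ha : 1 < a) (hb : 1 < b) (hc : 0 < c) (hn : (nearMisses a b c).Finite) :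
    ∃ C : ℝ, ∀ x : ℝ, 2 ≤ x → (pairs a b c x).Finite ∧
      |(((pairs a b c x).ncard : ℕ) : ℝ) - log x ^ 2 / (log a * log b)| ≤ C * log x := by
  obtain ⟨C, hC⟩ := off_near ha hb hc
  have hlog2 : 0 < log 2 := log_pos (by norm_num)
  refine ⟨C + 2 * ((nearMisses a b c).ncard : ℕ) / log 2, fun x hx => ?_⟩
  have hlx : log 2 ≤ log x := log_le_log (by norm_num) hx
  obtain ⟨h1, h2⟩ := hC x hx
  have hsub : pairs a b c x ⊆ (pairs a b c x \ nearMisses a b c) ∪ nearMisses a b c := by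
    intro p hp
    by_cases hq : p ∈ nearMisses a b c
    · exact Or.inr hq
    · exact Or.inl ⟨hp, hq⟩
  have hfin : (pairs a b c x).Finite := (h1.union hn).subset hsub
  refine ⟨hfin, ?_⟩
  have h3 : (((pairs a b c x).ncard : ℕ) : ℝ) ≤
      (((pairs a b c x \ nearMisses a b c).ncard : ℕ) : ℝ) + ((nearMisses a b c).ncard : ℕ) := by
    have h4 := Set.ncard_le_ncard hsub (h1.union hn)
    have h5 := Set.ncard_union_le (pairs a b c x \ nearMisses a b c) (nearMisses a b c)
    exact_mod_cast h4.trans h5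
  have h6 : (((pairs a b c x \ nearMisses a b c).ncard : ℕ) : ℝ) ≤
      (((pairs a b c x).ncard : ℕ) : ℝ) := by
    exact_mod_cast Set.ncard_le_ncard Set.sdiff_subset hfin
  have h7 : (((rect a b c x x ∩ nearMisses a b c).ncard : ℕ) : ℝ) ≤
      ((nearMisses a b c).ncard : ℕ) := by
    exact_mod_cast Set.ncard_le_ncard Set.inter_subset_right hn
  have h8 : 2 * (((nearMisses a b c).ncard : ℕ) : ℝ) ≤
      2 * ((nearMisses a b c).ncard : ℕ) / log 2 * log x := by
    rw [div_mul_eq_mul_div, le_div_iff₀ hlog2]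
    exact mul_le_mul_of_nonneg_left hlx (by positivity)
  have h9 := abs_le.1 h2
  rw [abs_le]
  have h10 : (0 : ℝ) ≤ ((nearMisses a b c).ncard : ℕ) := Nat.cast_nonneg _
  constructor <;> nlinarith [h9.1, h9.2]

end count

section dimension

/-- the index set -/
abbrev Idx (K : ℕ) : Type := {p : ℕ × ℕ // p.2 ≤ K * (p.1 + 1)}

/-- few indices up to `B` -/
lemma idx_count {q : ℝ} (hq : 1 < q) (K : ℕ) : ∀ ε : ℝ, 0 < ε → ∃ C : ℝ, ∀ B : ℝ, 1 ≤ B →
    {i : Idx K | q ^ i.1.1 ≤ B}.Finite ∧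
      (({i : Idx K | q ^ i.1.1 ≤ B}.ncard : ℕ) : ℝ) ≤ C * B ^ (0 + ε) := by
  intro ε hε
  have hlq : 0 < log q := log_pos hq
  refine ⟨((K : ℝ) + 1) * (2 / (ε * log q) + 1) ^ 2, fun B hB => ?_⟩
  have hB0 : 0 < B := by linarith
  set t : ℝ := log B / log q with ht
  have ht0 : 0 ≤ t := div_nonneg (log_nonneg hB) hlq.le
  set N : ℕ := ⌊t⌋₊ with hN
  have hNt : (N : ℝ) ≤ t := Nat.floor_le ht0
  set T : Finset (ℕ × ℕ) := Finset.range (N + 1) ×ˢ Finset.range (K * (N + 1) + 1) with hT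
  have hmaps : Set.MapsTo Subtype.val {i : Idx K | q ^ i.1.1 ≤ B} (T : Set (ℕ × ℕ)) := by
    rintro ⟨p, hp⟩ hi
    simp only [Set.mem_ofPred_eq] at hi
    have h1 : p.1 ≤ N := by
      rw [hN, Nat.le_floor_iff ht0, ht, le_div_iff₀ hlq, ← log_pow]
      exact log_le_log (by positivity) hi
    rw [Finset.mem_coe, hT, Finset.mem_product, Finset.mem_range, Finset.mem_range]
    change p.1 < N + 1 ∧ p.2 < K * (N + 1) + 1
    have h2 : K * (p.1 + 1) ≤ K * (N + 1) := Nat.mul_le_mul_left K (by omega)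
    exact ⟨by omega, by omega⟩
  have hinj : Set.InjOn Subtype.val {i : Idx K | q ^ i.1.1 ≤ B} := Subtype.val_injective.injOn
  have hfin := Set.Finite.of_injOn hmaps hinj (Finset.finite_toSet T)
  refine ⟨hfin, ?_⟩
  have h1 := Set.ncard_le_ncard_of_injOn _ hmaps hinj (Finset.finite_toSet T)
  rw [Set.ncard_coe_finset, hT, Finset.card_product, Finset.card_range, Finset.card_range] at h1
  have h2 : ((({i : Idx K | q ^ i.1.1 ≤ B}.ncard : ℕ)) : ℝ) ≤
      ((N : ℝ) + 1) * ((K : ℝ) * ((N : ℝ) + 1) + 1) := by exact_mod_cast h1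
  have hK0 : (0 : ℝ) ≤ K := Nat.cast_nonneg K
  have hN0 : (0 : ℝ) ≤ N := Nat.cast_nonneg N
  have h3 : ((N : ℝ) + 1) * ((K : ℝ) * ((N : ℝ) + 1) + 1) ≤ ((K : ℝ) + 1) * (t + 1) ^ 2 := by
    have e1 : (K : ℝ) * ((N : ℝ) + 1) + 1 ≤ ((K : ℝ) + 1) * ((N : ℝ) + 1) := by nlinarith
    calc ((N : ℝ) + 1) * ((K : ℝ) * ((N : ℝ) + 1) + 1)
        ≤ ((N : ℝ) + 1) * (((K : ℝ) + 1) * ((N : ℝ) + 1)) :=
          mul_le_mul_of_nonneg_left e1 (by positivity)
      _ = ((K : ℝ) + 1) * ((N : ℝ) + 1) ^ 2 := by ring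
      _ ≤ ((K : ℝ) + 1) * (t + 1) ^ 2 := by gcongr
  have h4 : t + 1 ≤ (2 / (ε * log q) + 1) * B ^ (ε / 2) := by
    have e1 : log B ≤ B ^ (ε / 2) / (ε / 2) := log_le_rpow_div hB0.le (by positivity)
    have e2 : 1 ≤ B ^ (ε / 2) := one_le_rpow hB (by positivity)
    have e3 : t ≤ 2 / (ε * log q) * B ^ (ε / 2) := by
      rw [ht, div_le_iff₀ hlq]
      refine e1.trans (le_of_eq ?_)
      field_simp
    linarith
  calc ((({i : Idx K | q ^ i.1.1 ≤ B}.ncard : ℕ)) : ℝ) ≤ ((K : ℝ) + 1) * (t + 1) ^ 2 :=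
        h2.trans h3
    _ ≤ ((K : ℝ) + 1) * ((2 / (ε * log q) + 1) * B ^ (ε / 2)) ^ 2 := by gcongr
    _ = ((K : ℝ) + 1) * (2 / (ε * log q) + 1) ^ 2 * (B ^ (ε / 2)) ^ 2 := by ring
    _ = ((K : ℝ) + 1) * (2 / (ε * log q) + 1) ^ 2 * B ^ (0 + ε) := by
        rw [← rpow_natCast (B ^ (ε / 2)) 2, ← rpow_mul hB0.le]
        congr 2
        push_cast
        ring

/-- a linear bound for `m` -/
lemma lin_bound {b Y D : ℝ} (hb : 1 < b) (hY : 1 ≤ Y) (hD : 1 ≤ D) :
    ∃ K : ℕ, ∀ n m : ℕ, b ^ m ≤ D * Y ^ n → m ≤ K * (n + 1) := by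
  have hlb : 0 < log b := log_pos hb
  obtain ⟨K, hK⟩ := exists_nat_ge ((log D + log Y) / log b)
  refine ⟨K, fun n m h => ?_⟩
  have hY0 : 0 < Y := by linarith
  have hD0 : 0 < D := by linarith
  have h1 : (m : ℝ) * log b ≤ log D + n * log Y := by
    rw [← log_pow, ← log_pow, ← log_mul hD0.ne' (by positivity)]
    exact log_le_log (by positivity) h
  have h2 : 0 ≤ log D := log_nonneg hD
  have h3 : 0 ≤ log Y := log_nonneg hY
  have h4 : (0 : ℝ) ≤ n := Nat.cast_nonneg n
  have h5 : log D + n * log Y ≤ (log D + log Y) * (n + 1) := by nlinarith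
  rw [div_le_iff₀ hlb] at hK
  have h6 : (m : ℝ) * log b ≤ (K : ℝ) * (n + 1) * log b := by nlinarith
  have h7 : (m : ℝ) ≤ (K : ℝ) * (n + 1) := le_of_mul_le_mul_right h6 hlb
  exact_mod_cast h7

lemma near_le {a b c : ℝ} (ha : 1 < a) (hc : 0 < c) {p : ℕ × ℕ} (hp : p ∈ nearMisses a b c) :
    |c * a ^ p.1 - b ^ p.2| ≤ √c * √a ^ p.1 ∧ b ^ p.2 ≤ (2 * c + 2) * a ^ p.1 := by
  simp only [nearMisses, Set.mem_ofPred_eq] at hp
  have ha0 : 0 < a := by linarith
  have h1 : 1 ≤ a ^ p.1 := one_le_pow₀ ha.le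
  have h2 : (√c * √a ^ p.1) ^ 2 = c * a ^ p.1 := by
    rw [mul_pow, sq_sqrt hc.le, ← pow_mul, mul_comm p.1 2, pow_mul, sq_sqrt ha0.le]
  have h3 : |c * a ^ p.1 - b ^ p.2| ≤ √c * √a ^ p.1 := by
    refine le_of_sq_le_sq ?_ (by positivity)
    rw [h2]
    exact hp.le
  refine ⟨h3, ?_⟩
  have h4 : √c * √a ^ p.1 ≤ c * a ^ p.1 + 1 := by
    have h5 : 0 ≤ √c * √a ^ p.1 := by positivity
    nlinarith [sq_nonneg (√c * √a ^ p.1 - 1)]
  have h6 := (abs_le.1 h3).1
  nlinarith

/-- a general principle: if the near misses of the parameter `ξ` are all among the indices, and give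
close approximations of `ξ`, then the set of the parameters with infinitely many near misses has
dimension zero -/
lemma dim_zero {F : Set ℝ} {S : ℝ → Set (ℕ × ℕ)} {q A : ℝ} (hq : 1 < q) (hA : 0 < A) (K : ℕ)
    (y : ℕ × ℕ → ℝ) (hS : ∀ ξ ∈ F, ∀ p ∈ S ξ, p.2 ≤ K * (p.1 + 1) ∧ |y p - ξ| * q ^ p.1 ≤ A)
    (hinf : ∀ ξ ∈ F, (S ξ).Infinite) : dimH F = 0 := by
  have h := Pool.Agent.R425.MK.dimH_balls (X := ℝ) (fun i : Idx K => y i.1)
    (fun i : Idx K => q ^ i.1.1) (fun i => one_le_pow₀ hq.le) (le_refl (0 : ℝ)) one_pos hA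
    (idx_count hq K)
  rw [zero_div, ENNReal.ofReal_zero] at h
  refine le_antisymm ((dimH_mono ?_).trans h) bot_le
  intro ξ hξ
  simp only [Set.mem_ofPred_eq]
  intro hfin
  apply hinf ξ hξ
  refine (hfin.image Subtype.val).subset ?_
  intro p hp
  obtain ⟨h1, h2⟩ := hS ξ hξ p hp
  refine ⟨⟨p, h1⟩, ?_, rfl⟩
  simp only [Set.mem_ofPred_eq]
  have hq0 : 0 < q ^ p.1 := by positivity
  rw [rpow_neg hq0.le, rpow_one, Real.dist_eq, ← div_eq_mul_inv, le_div_iff₀ hq0]
  exact h2

/-- the dilations with infinitely many near misses -/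
theorem dim_dilations {a b : ℝ} (ha : 1 < a) (hb : 1 < b) :
    dimH {c : ℝ | 0 < c ∧ (nearMisses a b c).Infinite} = 0 := by
  have ha0 : 0 < a := by linarith
  have hsa : 1 < √a := by
    rw [lt_sqrt (by norm_num)]
    linarith
  have h : ∀ k : ℕ, dimH {c : ℝ | (0 < c ∧ c ≤ k) ∧ (nearMisses a b c).Infinite} = 0 := by
    intro k
    obtain ⟨K, hK⟩ := lin_bound (D := 2 * (k : ℝ) + 2) hb ha.le (by
      have : (0 : ℝ) ≤ k := Nat.cast_nonneg k
      linarith)
    refine dim_zero (S := fun c => nearMisses a b c) hsa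
      (A := √k + 1) (by positivity) K (fun p => b ^ p.2 / a ^ p.1) ?_ (fun c hc => hc.2)
    rintro c ⟨⟨hc0, hck⟩, -⟩ p hp
    obtain ⟨h1, h2⟩ := near_le ha hc0 hp
    have hap : 0 < a ^ p.1 := by positivity
    constructor
    · refine hK p.1 p.2 (h2.trans ?_)
      exact mul_le_mul_of_nonneg_right (by linarith) hap.le
    · have h3 : b ^ p.2 / a ^ p.1 - c = -(c * a ^ p.1 - b ^ p.2) / a ^ p.1 := by
        field_simp
        ring
      rw [h3, abs_div, abs_neg, abs_of_pos hap, div_mul_eq_mul_div, div_le_iff₀ hap]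
      have h4 : √a ^ p.1 * √a ^ p.1 = a ^ p.1 := by
        rw [← mul_pow, mul_self_sqrt ha0.le]
      have h5 : √c ≤ √k := sqrt_le_sqrt hck
      calc |c * a ^ p.1 - b ^ p.2| * √a ^ p.1 ≤ √c * √a ^ p.1 * √a ^ p.1 :=
            mul_le_mul_of_nonneg_right h1 (by positivity)
        _ = √c * a ^ p.1 := by rw [mul_assoc, h4]
        _ ≤ (√k + 1) * a ^ p.1 := mul_le_mul_of_nonneg_right (by linarith) hap.le
  have hsub : {c : ℝ | 0 < c ∧ (nearMisses a b c).Infinite} ⊆
      ⋃ k : ℕ, {c : ℝ | (0 < c ∧ c ≤ k) ∧ (nearMisses a b c).Infinite} := by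
    rintro c ⟨h1, h2⟩
    obtain ⟨k, hk⟩ := exists_nat_ge c
    exact Set.mem_iUnion.2 ⟨k, ⟨h1, hk⟩, h2⟩
  refine le_antisymm ((dimH_mono hsub).trans ?_) bot_le
  rw [dimH_iUnion]
  exact iSup_le fun k => (h k).le

lemma pow_gap {a y : ℝ} (ha : 0 < a) (hy : 0 < y) (n : ℕ) :
    |y - a| * a ^ n ≤ |y ^ (n + 1) - a ^ (n + 1)| := by
  rcases le_total a y with h | h
  · have h1 : a ^ n ≤ y ^ n := pow_le_pow_left₀ ha.le h n
    have h2 : a ^ (n + 1) ≤ y ^ (n + 1) := pow_le_pow_left₀ ha.le h (n + 1)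
    rw [abs_of_nonneg (by linarith), abs_of_nonneg (by linarith)]
    have h3 : y ^ (n + 1) - a ^ (n + 1) = (y - a) * a ^ n + y * (y ^ n - a ^ n) := by ring
    rw [h3]
    nlinarith
  · have h1 : y ^ n ≤ a ^ n := pow_le_pow_left₀ hy.le h n
    have h2 : y ^ (n + 1) ≤ a ^ (n + 1) := pow_le_pow_left₀ hy.le h (n + 1)
    rw [abs_of_nonpos (by linarith), abs_of_nonpos (by linarith)]
    have h3 : -(y ^ (n + 1) - a ^ (n + 1)) = (a - y) * a ^ n + y * (a ^ n - y ^ n) := by ring
    rw [h3]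
    nlinarith

/-- the bases with infinitely many near misses -/
theorem dim_bases {b c : ℝ} (hb : 1 < b) (hc : 0 < c) :
    dimH {a : ℝ | 1 < a ∧ (nearMisses a b c).Infinite} = 0 := by
  have h : ∀ k : ℕ, dimH {a : ℝ | (1 + 1 / ((k : ℝ) + 1) ≤ a ∧ a ≤ (k : ℝ) + 2) ∧
      (nearMisses a b c).Infinite} = 0 := by
    intro k
    have hk0 : (0 : ℝ) ≤ k := Nat.cast_nonneg k
    set L : ℝ := 1 + 1 / ((k : ℝ) + 1) with hL
    have hL1 : 1 < L := by
      have : 0 < 1 / ((k : ℝ) + 1) := by positivity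
      linarith
    have hsL : 1 < √L := by
      rw [lt_sqrt (by norm_num)]
      linarith
    obtain ⟨K, hK⟩ := lin_bound (Y := (k : ℝ) + 2) (D := 2 * c + 2) hb (by linarith) (by linarith)
    refine dim_zero (S := fun a => nearMisses a b c) hsL
      (A := ((k : ℝ) + 2) * (1 + √c / c)) (by positivity) K
      (fun p => (b ^ p.2 / c) ^ (1 / (p.1 : ℝ))) ?_ (fun a ha => ha.2)
    rintro a ⟨⟨haL, hak⟩, -⟩ p hp
    have ha : 1 < a := by linarith
    have ha0 : 0 < a := by linarith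
    obtain ⟨h1, h2⟩ := near_le ha hc hp
    constructor
    · refine hK p.1 p.2 (h2.trans ?_)
      refine mul_le_mul_of_nonneg_left ?_ (by positivity)
      exact pow_le_pow_left₀ ha0.le hak _
    · have hsc : 0 ≤ √c / c := by positivity
      obtain ⟨n, m⟩ := p
      change |c * a ^ n - b ^ m| ≤ √c * √a ^ n at h1
      change |(b ^ m / c) ^ (1 / (n : ℝ)) - a| * √L ^ n ≤ _
      rcases n with _ | n
      · rw [Nat.cast_zero, div_zero, rpow_zero, pow_zero, mul_one, abs_le]
        constructor <;> nlinarith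
      · set y : ℝ := (b ^ m / c) ^ (1 / ((n + 1 : ℕ) : ℝ)) with hy
        have hbm : 0 < b ^ m / c := by positivity
        have hy0 : 0 < y := rpow_pos_of_pos hbm _
        have hyn : y ^ (n + 1) = b ^ m / c := by
          rw [hy, ← rpow_natCast, ← rpow_mul hbm.le, one_div_mul_cancel (by positivity), rpow_one]
        have h3 := pow_gap ha0 hy0 n
        rw [hyn] at h3
        have h4 : |b ^ m / c - a ^ (n + 1)| = |c * a ^ (n + 1) - b ^ m| / c := by
          rw [← abs_of_pos hc, ← abs_div, abs_of_pos hc, ← abs_neg]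
          congr 1
          field_simp
          ring
        rw [h4] at h3
        have h5 : |y - a| * a ^ n ≤ √c * √a ^ (n + 1) / c :=
          h3.trans (div_le_div_of_nonneg_right h1 hc.le)
        have h6 : √L ^ (n + 1) ≤ √a ^ (n + 1) :=
          pow_le_pow_left₀ (sqrt_nonneg _) (sqrt_le_sqrt haL) _
        have h7 : √a ^ (n + 1) * √a ^ (n + 1) = a * a ^ n := by
          rw [← mul_pow, mul_self_sqrt ha0.le, pow_succ]
          ring
        have han : 0 < a ^ n := by positivity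
        have h8 : (|y - a| * √L ^ (n + 1)) * a ^ n ≤ (√c / c * a) * a ^ n := by
          calc (|y - a| * √L ^ (n + 1)) * a ^ n = |y - a| * a ^ n * √L ^ (n + 1) := by ring
            _ ≤ √c * √a ^ (n + 1) / c * √a ^ (n + 1) :=
                mul_le_mul h5 h6 (by positivity) (by positivity)
            _ = √c / c * (√a ^ (n + 1) * √a ^ (n + 1)) := by ring
            _ = (√c / c * a) * a ^ n := by rw [h7]; ring
        have h9 : |y - a| * √L ^ (n + 1) ≤ √c / c * a := le_of_mul_le_mul_right h8 han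
        refine h9.trans ?_
        nlinarith
  have hsub : {a : ℝ | 1 < a ∧ (nearMisses a b c).Infinite} ⊆
      ⋃ k : ℕ, {a : ℝ | (1 + 1 / ((k : ℝ) + 1) ≤ a ∧ a ≤ (k : ℝ) + 2) ∧
        (nearMisses a b c).Infinite} := by
    rintro a ⟨h1, h2⟩
    obtain ⟨k, hk⟩ := exists_nat_ge (max a (1 / (a - 1)))
    have hk1 : a ≤ k := (le_max_left _ _).trans hk
    have hk2 : 1 / (a - 1) ≤ k := (le_max_right _ _).trans hk
    refine Set.mem_iUnion.2 ⟨k, ⟨?_, by linarith⟩, h2⟩
    have ha1 : 0 < a - 1 := by linarith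
    have h3 : 1 / ((k : ℝ) + 1) ≤ a - 1 := by
      rw [div_le_iff₀ (by positivity)]
      rw [div_le_iff₀ ha1] at hk2
      nlinarith
    linarith
  refine le_antisymm ((dimH_mono hsub).trans ?_) bot_le
  rw [dimH_iUnion]
  exact iSup_le fun k => (h k).le

end dimension

/-- **Theorem.** (1) There is a set `E` of Hausdorff dimension zero such that for all `c > 0` outside
`E` the number of the pairs `(n, m)` of natural numbers with `|c π ^ n - e ^ m| ≤ x` is asymptotic to
`(log x) ^ 2 / log π` (Q1 is the case `c = 1`).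
(2) More precisely and for all `a, b > 1`, there is a set `E` of Hausdorff dimension zero such that for
all `c > 0` outside `E` the number of the pairs with `|c a ^ n - b ^ m| ≤ x` is
`(log x) ^ 2 / (log a log b) + O(log x)`, and only finitely many pairs satisfy
`|c a ^ n - b ^ m| < (c a ^ n) ^ (1/2)`.
(3) For all `b > 1` and `c > 0` there is a set `E` of Hausdorff dimension zero such that the same holds
for all `a > 1` outside `E`. -/
theorem result :
    (∃ E : Set ℝ, dimH E = 0 ∧ ∀ c : ℝ, 0 < c → c ∉ E →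
      (∀ x, (pairs π (exp 1) c x).Finite) ∧
      (fun x : ℝ => (((pairs π (exp 1) c x).ncard : ℕ) : ℝ)) ~[atTop]
        (fun x : ℝ => log x ^ 2 / log π)) ∧
    (∀ a b : ℝ, 1 < a → 1 < b → ∃ E : Set ℝ, dimH E = 0 ∧ ∀ c : ℝ, 0 < c → c ∉ E →
      (nearMisses a b c).Finite ∧
      ∃ C : ℝ, ∀ x : ℝ, 2 ≤ x → (pairs a b c x).Finite ∧
        |(((pairs a b c x).ncard : ℕ) : ℝ) - log x ^ 2 / (log a * log b)| ≤ C * log x) ∧
    (∀ b c : ℝ, 1 < b → 0 < c → ∃ E : Set ℝ, dimH E = 0 ∧ ∀ a : ℝ, 1 < a → a ∉ E →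
      (nearMisses a b c).Finite ∧
      ∃ C : ℝ, ∀ x : ℝ, 2 ≤ x → (pairs a b c x).Finite ∧
        |(((pairs a b c x).ncard : ℕ) : ℝ) - log x ^ 2 / (log a * log b)| ≤ C * log x) := by
  have h2 : ∀ a b : ℝ, 1 < a → 1 < b → ∃ E : Set ℝ, dimH E = 0 ∧ ∀ c : ℝ, 0 < c → c ∉ E →
      (nearMisses a b c).Finite ∧
      ∃ C : ℝ, ∀ x : ℝ, 2 ≤ x → (pairs a b c x).Finite ∧
        |(((pairs a b c x).ncard : ℕ) : ℝ) - log x ^ 2 / (log a * log b)| ≤ C * log x := by
    intro a b ha hb
    refine ⟨_, dim_dilations ha hb, fun c hc hcE => ?_⟩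
    have hfin : (nearMisses a b c).Finite := by
      by_contra hcon
      exact hcE ⟨hc, hcon⟩
    exact ⟨hfin, asym ha hb hc hfin⟩
  refine ⟨?_, h2, fun b c hb hc => ?_⟩
  · have hpi : 1 < π := by linarith [pi_gt_three]
    have he : 1 < exp 1 := by
      rw [one_lt_exp_iff]
      exact one_pos
    obtain ⟨E, hE, h⟩ := h2 π (exp 1) hpi he
    refine ⟨E, hE, fun c hc hcE => ?_⟩
    obtain ⟨-, C, hC⟩ := h c hc hcE
    have hlp : 0 < log π := log_pos hpi
    refine ⟨fun x => ?_, ?_⟩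
    · refine (hC (max x 2) (le_max_right _ _)).1.subset ?_
      intro p hp
      exact le_trans hp (le_max_left x 2)
    · have h3 : (fun x : ℝ => (((pairs π (exp 1) c x).ncard : ℕ) : ℝ) - log x ^ 2 / log π)
          =o[atTop] (fun x : ℝ => log x ^ 2 / log π) := by
        have h4 : (fun x : ℝ => (((pairs π (exp 1) c x).ncard : ℕ) : ℝ) - log x ^ 2 / log π)
            =O[atTop] (fun x : ℝ => log x) := by
          refine IsBigO.of_bound C ?_
          filter_upwards [eventually_ge_atTop (2 : ℝ)] with x hx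
          have h5 := (hC x hx).2
          rw [log_exp, mul_one] at h5
          rw [norm_eq_abs, norm_eq_abs, abs_of_nonneg (log_nonneg (by linarith : (1 : ℝ) ≤ x))]
          exact h5
        refine h4.trans_isLittleO ?_
        have h6 : (fun x : ℝ => log x) =o[atTop] (fun x : ℝ => log x ^ 2) := by
          have h7 : (fun x : ℝ => x) =o[atTop] (fun x : ℝ => x ^ 2) := by
            have := isLittleO_pow_pow_atTop_of_lt (𝕜 := ℝ) (p := 1) (q := 2) (by norm_num)
            simpa using this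
          exact h7.comp_tendsto tendsto_log_atTop
        have h8 : (fun x : ℝ => log x ^ 2) =O[atTop] (fun x : ℝ => log x ^ 2 / log π) := by
          refine IsBigO.of_bound (log π) ?_
          filter_upwards with x
          rw [norm_div, norm_of_nonneg hlp.le, mul_div_cancel₀ _ hlp.ne']
        exact h6.trans_isBigO h8
      exact h3
  · refine ⟨_, dim_bases hb hc, fun a ha haE => ?_⟩
    have hfin : (nearMisses a b c).Finite := by
      by_contra hcon
      exact haE ⟨ha, hcon⟩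
    exact ⟨hfin, asym ha hb hc hfin⟩

end Pool.Agent.Results.MP_606be1_nt.DilatedNearCoincidences
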