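import Mathlib
import Pool.Agent.R485.LB.Res

/-!
# The bases for which the near-coincidence asymptotic fails

For fixed `b > 1` (for instance `b = e`) and variable `a > 1` (in Q1 `a = π`) let `N(x)` be the number
of pairs `(n, m)` with `|a ^ n - b ^ m| ≤ x`. We determine the size of the set of the bases `a` for
which `N(x) ~ (log x)² / (log a log b)` fails.

* It is residual: for all `a > 1` outside a set of the first category `N(x)` is even infinite for
  every `x > 0`.
* It is null for the Hausdorff measures with gauge functions `(log (1 / r)) ^ (-σ)`, `σ > 2`, so that it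
  has Hausdorff dimension zero. Moreover, outside a null set for all these gauge functions the
  asymptotic formula holds with error `O(log x)`.
* For the gauge functions with `σ < 2` its measure is infinite in every interval; this is even true
  for the set of the bases `a` for which `N(x)` is infinite for every `x > 0`.

So the exceptional set has logarithmic dimension exactly `2` in every interval.

Proof. Upper bound: by the starting helper file `Pool.Agent.H491R3.PE.Near` the formula with
error `O(log x)` holds for `a` if `log a / log b` is irrational and `|a ^ n - b ^ m| < a ^ (n / 2)` has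
only finitely many coprime solutions; the exceptions are covered by the intervals of length
`C A ^ (-n / 2)` about `b ^ (m / n)`. Lower bound: Cantor sets whose `k`-th stage consists of
neighbourhoods of the numbers `b ^ (m / n)`, `n ≤ N_k`, of radius about `B ^ (-N_k)`; a positive
proportion of the fractions with denominators up to `N_k` (Dirichlet's theorem and a covering
argument, `many_frac`) is used in each interval of the previous stage.
-/

set_option autoImplicit false

namespace Pool.Agent.Results.MP_606be1_nt.ExceptionalBases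

open Set Filter MeasureTheory Asymptotics
open scoped ENNReal

/-- The pairs of natural numbers `(n, m)` with `|a ^ n - b ^ m| ≤ x`. -/
def pairs (a b x : ℝ) : Set (ℕ × ℕ) := {p | |a ^ p.1 - b ^ p.2| ≤ x}

/-- `N(x) ~ (log x)² / (log a log b)` (a number `N(x)` which is infinite counts as `0`). -/
def Asymptotic (a b : ℝ) : Prop :=
  (fun x : ℝ => ((pairs a b x).ncard : ℝ)) ~[atTop]
    (fun x : ℝ => Real.log x ^ 2 / (Real.log a * Real.log b))

/-- `N(x)` is finite and `N(x) = (log x)² / (log a log b) + O(log x)` for `x ≥ 2`. -/
def StrongAsymptotic (a b : ℝ) : Prop :=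
  ∃ C : ℝ, ∀ x : ℝ, 2 ≤ x → (pairs a b x).Finite ∧
    |((pairs a b x).ncard : ℝ) - Real.log x ^ 2 / (Real.log a * Real.log b)| ≤ C * Real.log x

/-- `N(x)` is infinite for every `x > 0`. -/
def AllInfinite (a b : ℝ) : Prop := ∀ x : ℝ, 0 < x → (pairs a b x).Infinite

/-- The Hausdorff measure on the real line with the gauge function `(log (1 / r)) ^ (-σ)`, where
`r` is the diameter. -/
noncomputable def logMeasure (σ : ℝ) : Measure ℝ :=
  Measure.mkMetric fun d : ℝ≥0∞ => ENNReal.ofReal ((-Real.log d.toReal) ^ (-σ))

/-- **Size of the set of exceptional bases.** -/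
theorem result (b : ℝ) (hb : 1 < b) :
    (∀ a, 1 < a → (StrongAsymptotic a b → Asymptotic a b) ∧ (AllInfinite a b → ¬ Asymptotic a b)) ∧
    (∀ᶠ a in residual ℝ, 1 < a → AllInfinite a b) ∧
    (∀ σ : ℝ, 2 < σ → logMeasure σ {a | 1 < a ∧ ¬ StrongAsymptotic a b} = 0) ∧
    dimH {a | 1 < a ∧ ¬ StrongAsymptotic a b} = 0 ∧
    (∀ σ : ℝ, 0 < σ → σ < 2 → ∀ U : Set ℝ, IsOpen U → (U ∩ Ioi 1).Nonempty →
      logMeasure σ {a | a ∈ U ∧ 1 < a ∧ AllInfinite a b} = ⊤) :=
  ⟨fun _ ha => ⟨fun h => Pool.Agent.R485.LB.AF_of_SA ha hb h,
      fun h => Pool.Agent.R485.LB.not_AF_of_AI ha hb h⟩,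
    Pool.Agent.R485.LB.generic hb,
    fun _ hσ => Pool.Agent.R485.LB.null hb hσ,
    Pool.Agent.R485.LB.dimH_zero (Pool.Agent.R485.LB.null hb (by norm_num)),
    fun _ hσ hσ2 U hU hne => Pool.Agent.R485.LB.full hb hσ hσ2 U hU hne⟩

end Pool.Agent.Results.MP_606be1_nt.ExceptionalBases
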