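import Pool.Agent.R532.Nc4

/-!
# Near-coincidences between `q π ^ n` and `e ^ m` for rational `q ≠ 1`

For every rational `q > 0`, `q ≠ 1`, and all `T` between `C log x` and the tower `2 ^ 2 ^ ... ^ 2` of
height `h`, the number of the pairs `(n, m)` with `n ≤ T` and `|q π ^ n - e ^ m| ≤ x` is
`(log x) ^ 2 / log π + O(log x + h)` (the question is about `q = 1`, `T = ∞`).  The same is true for
`|c a ^ n - b ^ m|`, for all real `a, b > 1` and all `c > 0` such that `log c / log b` is irrational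
and not a Liouville number.

Two near misses `|c a ^ n - b ^ m| < (c a ^ n) ^ (1/2)` with `n < n'` give, by elimination of `log a`,
a rational approximation of `log c / log b` with denominator `n' - n` and an error exponentially
small in `n`; so `n'` is exponentially large in `n`.
-/

set_option autoImplicit false

namespace Pool.Agent.Results.MP_606be1_nt.RationalDilations

open Real Filter Asymptotics Topology
open Pool.Agent.R532.Nc (nearMisses pairsUpTo tower)

/-- the near misses have exponential gaps, and the asymptotic holds for the pairs with `n ≤ T` if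
`T ≥ C log x` is at most a tower of height `h`, with the error `O(log x + h)` -/
def TowerAsymptotic (a b c : ℝ) : Prop :=
  ∃ κ : ℝ, 0 < κ ∧ ∃ C : ℝ,
    (∀ p ∈ nearMisses a b c, ∀ p' ∈ nearMisses a b c, C ≤ p.1 → p.1 < p'.1 →
      exp (κ * p.1) ≤ p'.1) ∧
    ∀ x : ℝ, 2 ≤ x → ∀ T : ℝ, C * log x ≤ T → ∀ h : ℕ, T ≤ tower h →
      (pairsUpTo a b c x T).Finite ∧
      |(((pairsUpTo a b c x T).ncard : ℕ) : ℝ) - log x ^ 2 / (log a * log b)| ≤ C * (log x + h)

theorem main {a b c : ℝ} (ha : 1 < a) (hb : 1 < b) (hc : 0 < c)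
    (h1 : Irrational (log c / log b)) (h2 : ¬ Liouville (log c / log b)) :
    TowerAsymptotic a b c := by
  obtain ⟨κ, hκ, N, hN⟩ := Pool.Agent.R532.Nc.gap ha hb hc (Pool.Agent.R532.Nc.meas_of h1 h2)
  obtain ⟨C₁, hC₁0, hC₁⟩ := Pool.Agent.R532.Nc.tower_count hκ N
  obtain ⟨C₂, hC₂0, hC₂⟩ := Pool.Agent.R532.Nc.trunc ha hb hc
  have hlog2 : 0 < log 2 := log_pos (by norm_num)
  have hN0 : (0 : ℝ) ≤ N := Nat.cast_nonneg N
  refine ⟨κ, hκ, N + C₂ + C₂ * C₁ / log 2, ?_, fun x hx T hT h hTh => ?_⟩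
  · rintro ⟨n, m⟩ hp ⟨n', m'⟩ hp' hn hnn
    refine hN n m n' m' ?_ hnn hp hp'
    have h3 : (N : ℝ) ≤ n := by
      refine le_trans ?_ hn
      have : 0 ≤ C₂ + C₂ * C₁ / log 2 := by positivity
      linarith
    exact_mod_cast h3
  · have hlx : log 2 ≤ log x := log_le_log (by norm_num) hx
    have hlx0 : 0 < log x := by linarith
    have h0 : 0 ≤ C₂ * C₁ / log 2 := by positivity
    obtain ⟨f1, e1⟩ := hC₂ x hx T (le_trans (mul_le_mul_of_nonneg_right (by linarith) hlx0.le) hT)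
    refine ⟨f1, e1.trans ?_⟩
    have h3 := hC₁ {n : ℕ | ∃ m, (n, m) ∈ nearMisses a b c} (by
      rintro n ⟨m, hm⟩ n' ⟨m', hm'⟩ h4 h5
      exact hN n m n' m' h4 h5 hm hm') h T hTh
    have h4 : Pool.Agent.R532.Nc.nearUpTo a b c T =
        {n : ℕ | n ∈ {n : ℕ | ∃ m, (n, m) ∈ nearMisses a b c} ∧ (n : ℝ) ≤ T} := by
      ext n
      simp only [Pool.Agent.R532.Nc.nearUpTo, Set.mem_ofPred_eq]
      exact and_comm
    rw [← h4] at h3
    have h5 : C₂ * C₁ ≤ C₂ * C₁ / log 2 * log x := by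
      rw [div_mul_eq_mul_div, le_div_iff₀ hlog2]
      exact mul_le_mul_of_nonneg_left hlx (by positivity)
    have hh : (0 : ℝ) ≤ h := Nat.cast_nonneg h
    calc C₂ * log x + C₂ * ((Pool.Agent.R532.Nc.nearUpTo a b c T).ncard : ℕ)
        ≤ C₂ * log x + C₂ * (h + C₁) := by
          have := mul_le_mul_of_nonneg_left h3 hC₂0
          linarith
      _ = C₂ * (log x + h) + C₂ * C₁ := by ring
      _ ≤ C₂ * (log x + h) + C₂ * C₁ / log 2 * log x := by linarith
      _ ≤ (N + C₂ + C₂ * C₁ / log 2) * (log x + h) := by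
          have h6 : 0 ≤ (N : ℝ) * (log x + h) := by positivity
          have h7 : 0 ≤ C₂ * C₁ / log 2 * h := by positivity
          nlinarith

lemma le_tower : ∀ h : ℕ, h + 1 ≤ tower h := by
  intro h
  induction h with
  | zero => exact le_rfl
  | succ h ih =>
    have := Pool.Agent.R532.Nc.tower_lt h
    omega

lemma two_pow_le_tower (h : ℕ) : 2 ^ (h + 1) ≤ tower (h + 1) :=
  Nat.pow_le_pow_right (by norm_num) (by have := le_tower h; omega)

lemma eventually_tower (C : ℝ) : ∀ᶠ y : ℝ in atTop, C * y ≤ (tower ⌊y⌋₊ : ℝ) := by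
  have h1 := tendsto_pow_const_div_const_pow_of_one_lt 1 (by norm_num : (1 : ℝ) < 2)
  have h2 : ∀ᶠ k : ℕ in atTop, (k : ℝ) ^ 1 / 2 ^ k < 1 / (2 * |C| + 1) :=
    h1.eventually (gt_mem_nhds (by positivity))
  have h3 : ∀ᶠ y : ℝ in atTop, ((⌊y⌋₊ : ℕ) : ℝ) ^ 1 / 2 ^ ⌊y⌋₊ < 1 / (2 * |C| + 1) :=
    tendsto_nat_floor_atTop.eventually h2
  filter_upwards [h3, eventually_ge_atTop (1 : ℝ)] with y hy hy1
  have hC : 0 ≤ |C| := abs_nonneg C
  rw [pow_one, div_lt_div_iff₀ (by positivity) (by positivity), one_mul] at hy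
  have h4 : 1 ≤ ⌊y⌋₊ := Nat.le_floor (by exact_mod_cast hy1)
  obtain ⟨k, hk⟩ := Nat.exists_eq_add_of_le' h4
  have h5 : y < ⌊y⌋₊ + 1 := Nat.lt_floor_add_one y
  have h6 : (1 : ℝ) ≤ ⌊y⌋₊ := by exact_mod_cast h4
  have h7 : ((2 : ℝ)) ^ ⌊y⌋₊ ≤ (tower ⌊y⌋₊ : ℝ) := by
    rw [hk]
    exact_mod_cast two_pow_le_tower k
  have h8 : C * y ≤ |C| * y := mul_le_mul_of_nonneg_right (le_abs_self C) (by linarith)
  nlinarith

/-- the asymptotic up to the tower of height `⌊log x⌋` -/
theorem asym {a b c : ℝ} (ha : 1 < a) (hb : 1 < b) (h : TowerAsymptotic a b c) :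
    (fun x : ℝ => (((pairsUpTo a b c x (tower ⌊log x⌋₊)).ncard : ℕ) : ℝ)) ~[atTop]
      (fun x : ℝ => log x ^ 2 / (log a * log b)) := by
  obtain ⟨κ, hκ, C, -, hC⟩ := h
  have hla : 0 < log a := log_pos ha
  have hlb : 0 < log b := log_pos hb
  have h1 : (fun x : ℝ => (((pairsUpTo a b c x (tower ⌊log x⌋₊)).ncard : ℕ) : ℝ) -
      log x ^ 2 / (log a * log b)) =O[atTop] (fun x : ℝ => log x) := by
    refine IsBigO.of_bound (2 * |C|) ?_
    filter_upwards [tendsto_log_atTop.eventually (eventually_tower C),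
      eventually_ge_atTop (2 : ℝ)] with x hx hx2
    have hlx : 0 ≤ log x := log_nonneg (by linarith)
    have h2 := (hC x hx2 (tower ⌊log x⌋₊) hx ⌊log x⌋₊ le_rfl).2
    have h3 : (⌊log x⌋₊ : ℝ) ≤ log x := Nat.floor_le hlx
    rw [norm_eq_abs, norm_eq_abs, abs_of_nonneg hlx]
    have h4 : (0 : ℝ) ≤ ⌊log x⌋₊ := Nat.cast_nonneg _
    calc _ ≤ C * (log x + ⌊log x⌋₊) := h2
      _ ≤ |C| * (log x + ⌊log x⌋₊) := mul_le_mul_of_nonneg_right (le_abs_self C) (by linarith)
      _ ≤ |C| * (log x + log x) := mul_le_mul_of_nonneg_left (by linarith) (abs_nonneg C)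
      _ = 2 * |C| * log x := by ring
  have h6 : (fun x : ℝ => log x) =o[atTop] (fun x : ℝ => log x ^ 2) := by
    have h7 : (fun x : ℝ => x) =o[atTop] (fun x : ℝ => x ^ 2) := by
      have := isLittleO_pow_pow_atTop_of_lt (𝕜 := ℝ) (p := 1) (q := 2) (by norm_num)
      simpa using this
    exact h7.comp_tendsto tendsto_log_atTop
  have h8 : (fun x : ℝ => log x ^ 2) =O[atTop] (fun x : ℝ => log x ^ 2 / (log a * log b)) := by
    refine IsBigO.of_bound (log a * log b) ?_
    filter_upwards with x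
    have h9 : 0 < log a * log b := by positivity
    rw [norm_div, norm_of_nonneg h9.le, mul_div_cancel₀ _ h9.ne']
  exact (h1.trans_isLittleO h6).trans_isBigO h8

/-- **Theorem.** (1) Let `a, b > 1` and `c > 0` be real numbers such that `log c / log b` is irrational
and not a Liouville number. Then two near misses `|c a ^ n - b ^ m| < (c a ^ n) ^ (1/2)` with
`C ≤ n < n'` satisfy `n' ≥ exp (κ n)`, and for all `x ≥ 2`, all `h` and all `T` between `C log x` and
the tower of height `h` the number of the pairs with `n ≤ T` and `|c a ^ n - b ^ m| ≤ x` is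
`(log x) ^ 2 / (log a log b)` up to an error `≤ C (log x + h)`.
(2) In particular this holds for `a = π`, `b = e` and all rational numbers `c = q > 0`, `q ≠ 1`; the
number of the pairs `(n, m)` with `|q π ^ n - e ^ m| ≤ x` and `n` at most the tower of height `⌊log x⌋`
is asymptotic to `(log x) ^ 2 / log π`.
(3) More generally (2) holds for every real `a > 1` instead of `π`, and for `c = e ^ α` with
irrational algebraic numbers `α`. -/
theorem result :
    (∀ a b c : ℝ, 1 < a → 1 < b → 0 < c → Irrational (log c / log b) →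
      ¬ Liouville (log c / log b) → TowerAsymptotic a b c) ∧
    (∀ q : ℚ, 0 < q → q ≠ 1 → TowerAsymptotic π (exp 1) q ∧
      (fun x : ℝ => (((pairsUpTo π (exp 1) q x (tower ⌊log x⌋₊)).ncard : ℕ) : ℝ)) ~[atTop]
        (fun x : ℝ => log x ^ 2 / log π)) ∧
    (∀ a : ℝ, 1 < a → ∀ c : ℝ, ((∃ q : ℚ, 0 < q ∧ q ≠ 1 ∧ c = q) ∨
        (∃ α : ℝ, IsAlgebraic ℤ α ∧ Irrational α ∧ c = exp α)) →
      TowerAsymptotic a (exp 1) c ∧
      (fun x : ℝ => (((pairsUpTo a (exp 1) c x (tower ⌊log x⌋₊)).ncard : ℕ) : ℝ)) ~[atTop]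
        (fun x : ℝ => log x ^ 2 / log a)) := by
  have he : 1 < exp 1 := by
    rw [one_lt_exp_iff]
    exact one_pos
  have h3 : ∀ a : ℝ, 1 < a → ∀ c : ℝ, ((∃ q : ℚ, 0 < q ∧ q ≠ 1 ∧ c = q) ∨
        (∃ α : ℝ, IsAlgebraic ℤ α ∧ Irrational α ∧ c = exp α)) →
      TowerAsymptotic a (exp 1) c ∧
      (fun x : ℝ => (((pairsUpTo a (exp 1) c x (tower ⌊log x⌋₊)).ncard : ℕ) : ℝ)) ~[atTop]
        (fun x : ℝ => log x ^ 2 / log a) := by
    intro a ha c hc
    have h4 : 0 < c ∧ Irrational (log c) ∧ ¬ Liouville (log c) := by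
      rcases hc with ⟨q, hq, hq1, rfl⟩ | ⟨α, h5, h6, rfl⟩
      · exact ⟨by exact_mod_cast hq, Pool.Agent.R532.Nc.log_rat q hq hq1⟩
      · rw [log_exp]
        exact ⟨exp_pos _, h6, fun hL => hL.transcendental h5⟩
    have h5 : log c / log (exp 1) = log c := by rw [log_exp, div_one]
    have h6 := main ha he h4.1 (by rw [h5]; exact h4.2.1) (by rw [h5]; exact h4.2.2)
    refine ⟨h6, ?_⟩
    have h7 := asym ha he h6
    rw [log_exp, mul_one] at h7
    exact h7
  have hpi : 1 < π := by linarith [pi_gt_three]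
  exact ⟨fun a b c ha hb hc h1 h2 => main ha hb hc h1 h2,
    fun q hq hq1 => h3 π hpi q (Or.inl ⟨q, hq, hq1, rfl⟩), h3⟩

end Pool.Agent.Results.MP_606be1_nt.RationalDilations
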